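import Pool.Agent.W585.Main
set_option autoImplicit false
open scoped ContDiff Manifold

/-!
# The symplectic Hadamard question

Every simply connected symplectic manifold `(M, ω)` of dimension `2n` which admits an `ω`-compatible almost
complex structure `J` (not assumed to be integrable) whose metric `g_J(u, v) = ω(u, Jv)` is complete and has
nonpositive sectional curvature is symplectomorphic to `(ℝ²ⁿ, ω₀)`.

The definitions are in `Pool.Agent.W585.SDefs`, `Pool.Agent.H660R4.Defs` and `Pool.Agent.H660R3.LorDefs`.

Idea of the proof. In exponential coordinates at a point, with Euler field `E`, one has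
`2 (L_E ω)(v, Jv) = (L_E g)(v, v) + (L_E g)(Jv, Jv)`, and the growth of Jacobi fields gives `L_E g ≥ 2 g`; so
the exact form `d(½ ι_E ω) = ½ L_E ω` tames `J`, while the Gauss lemma gives `|½ ι_E ω| ≤ ½ |x|`. After a
modification near the origin this exact form has a complete Liouville field all of whose backward orbits
converge to the origin, hence is isomorphic to the flat form; and the linear path between it and `ω` consists of
forms taming `J` with primitives of linear growth, so that Moser's argument applies.
-/
namespace Pool.Agent.Results.MP_f72ae4_gt.SymplecticHadamard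

open Pool.Agent.W585 Pool.Agent.H660R4

theorem result (n : ℕ) (M : Type*) [TopologicalSpace M] [T2Space M]
    [ChartedSpace (EuclideanSpace ℝ (Fin (2 * n))) M] [IsManifold (𝓡 (2 * n)) ∞ M]
    [SimplyConnectedSpace M] (w : SymplecticForm n M) (J : AlmostComplex n M)
    (hJ : IsCompatible w J) (hc : GeodesicallyComplete (compatMetric w J hJ))
    (hK : NonposCurved (compatMetric w J hJ)) :
    ∃ φ : M → EuclideanSpace ℝ (Fin (2 * n)), IsSymplectomorphism w φ :=
  main' w J hJ hc hK

end Pool.Agent.Results.MP_f72ae4_gt.SymplecticHadamard
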